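import Pool.Agent.H415R2.KnightCount

namespace Pool.Agent.Results.MP_b90a94_co.KnightPairFormula

open Pool.Agent.Helper848 Pool.Agent.H415R2.Knight

/-- `c k = (C(2k, k) / 4 ^ k) ^ 2` -/
def c (k : ℕ) : ℚ := (((2 * k).choose k : ℚ) / 4 ^ k) ^ 2

theorem c_eq (k : ℕ) : c k = (1 / 4) ^ (2 * k) * ((Nat.centralBinom k : ℚ) * (Nat.centralBinom k : ℚ)) := by
  unfold c
  rw [Nat.centralBinom_eq_two_mul_choose, div_pow, ← pow_mul, mul_comm k 2, div_eq_mul_inv,
    one_div, inv_pow]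
  ring

theorem S_even_hi (k : ℕ) : (1 / 4 : ℚ) ^ (2 * k) * S (2 * k) (k + 1) = (1 + c k) / 2 := by
  have h := S_refl (2 * k) (k + 1) (by omega)
  rw [show 2 * k + 1 - (k + 1) = k from by omega] at h
  have h2 : S (2 * k) (k + 1) = S (2 * k) k + u (2 * k) k := by
    unfold S; rw [Finset.sum_range_succ]
  have h3 : u (2 * k) k = (Nat.centralBinom k : ℚ) * (Nat.centralBinom k : ℚ) := by
    unfold u; rw [show 2 * k - k = k from by omega]
  have h4 : (1 / 4 : ℚ) ^ (2 * k) * 4 ^ (2 * k) = 1 := by rw [← mul_pow]; norm_num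
  rw [c_eq, ← h3]
  linear_combination (1 / 2 * (1 / 4 : ℚ) ^ (2 * k)) * h + (1 / 2 * (1 / 4 : ℚ) ^ (2 * k)) * h2 +
    1 / 2 * h4

theorem S_even_lo (k : ℕ) : (1 / 4 : ℚ) ^ (2 * k) * S (2 * k) k = (1 - c k) / 2 := by
  have h := S_even_hi k
  have h2 : S (2 * k) (k + 1) = S (2 * k) k + u (2 * k) k := by
    unfold S; rw [Finset.sum_range_succ]
  have h3 : u (2 * k) k = (Nat.centralBinom k : ℚ) * (Nat.centralBinom k : ℚ) := by
    unfold u; rw [show 2 * k - k = k from by omega]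
  have h5 := c_eq k
  rw [← h3] at h5
  linear_combination h - (1 / 4 : ℚ) ^ (2 * k) * h2 + h5

theorem S_odd (k : ℕ) : (1 / 4 : ℚ) ^ (2 * k + 1) * S (2 * k + 1) (k + 1) = 1 / 2 := by
  have h := S_refl (2 * k + 1) (k + 1) (by omega)
  rw [show 2 * k + 1 + 1 - (k + 1) = k + 1 from by omega] at h
  have h4 : (1 / 4 : ℚ) ^ (2 * k + 1) * 4 ^ (2 * k + 1) = 1 := by rw [← mul_pow]; norm_num
  linear_combination (1 / 2 * (1 / 4 : ℚ) ^ (2 * k + 1)) * h + 1 / 2 * h4

/-- The number `T(n)` of domino tilings of the Aztec diamond of order `n ≥ 2` from which the two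
cells centred at `(-1/2, -1/2)` and `(1/2, 3/2)` have been removed, for `n = 4 k, 4 k + 1,
4 k + 2, 4 k + 3`. -/
theorem result : ∀ k : ℕ,
    (1 ≤ k → (numTilings (knightRegion (4 * k)) : ℚ) =
      2 ^ (4 * k * (4 * k + 1) / 2) * (k * c k * (1 + c k) / 2)) ∧
    (1 ≤ k → (numTilings (knightRegion (4 * k + 1)) : ℚ) =
      2 ^ ((4 * k + 1) * (4 * k + 2) / 2) * ((2 * k + 1) * c k * (1 - c k) / 4)) ∧
    ((numTilings (knightRegion (4 * k + 2)) : ℚ) =
      2 ^ ((4 * k + 2) * (4 * k + 3) / 2) * ((2 * k + 1) * c k / 4)) ∧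
    ((numTilings (knightRegion (4 * k + 3)) : ℚ) =
      2 ^ ((4 * k + 3) * (4 * k + 4) / 2) * ((k + 1) * c (k + 1) / 2)) := by
  intro k
  have hcb := cb_succ k
  refine ⟨fun hk => ?_, fun hk => ?_, ?_, ?_⟩
  · have h := tilings_even (2 * k) (by omega)
    rw [show 2 * (2 * k) = 4 * k from by ring] at h
    rw [h, show 2 * k / 2 + 1 = k + 1 from by omega, show (2 * k + 1) / 2 = k from by omega,
      S_even_hi, show 4 * k * (4 * k + 1) / 2 = 2 * k * (4 * k + 1) from by
        rw [show 4 * k * (4 * k + 1) = 2 * (2 * k * (4 * k + 1)) from by ring,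
          Nat.mul_div_cancel_left _ (by norm_num)]]
    have h3 : u (2 * k) k = (Nat.centralBinom k : ℚ) * (Nat.centralBinom k : ℚ) := by
      unfold u; rw [show 2 * k - k = k from by omega]
    have h5 := c_eq k
    rw [← h3] at h5
    rw [h5]
    ring
  · have h := tilings_odd (2 * k) (by omega)
    rw [show 2 * (2 * k) + 1 = 4 * k + 1 from by ring] at h
    rw [h, show (2 * k + 1) / 2 = k from by omega, show 2 * k + 1 - k = k + 1 from by omega,
      S_even_lo, show (4 * k + 1) * (4 * k + 2) / 2 = (4 * k + 1) * (2 * k + 1) from by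
        rw [show (4 * k + 1) * (4 * k + 2) = 2 * ((4 * k + 1) * (2 * k + 1)) from by ring,
          Nat.mul_div_cancel_left _ (by norm_num)]]
    have h5 := c_eq k
    push_cast
    rw [pow_succ (1 / 4 : ℚ) (2 * k)]
    have e : ((k : ℚ) + 1) * (Nat.centralBinom k : ℚ) * (Nat.centralBinom (k + 1) : ℚ) *
        ((1 / 4 : ℚ) ^ (2 * k) * (1 / 4)) = (2 * k + 1) * c k / 2 := by
      rw [h5]
      linear_combination ((Nat.centralBinom k : ℚ) * (1 / 4 : ℚ) ^ (2 * k) * (1 / 4)) * hcb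
    linear_combination (2 ^ ((4 * k + 1) * (2 * k + 1)) * ((1 - c k) / 2)) * e
  · have h := tilings_even (2 * k + 1) (by omega)
    rw [show 2 * (2 * k + 1) = 4 * k + 2 from by ring] at h
    rw [h, show (2 * k + 1) / 2 + 1 = k + 1 from by omega,
      show (2 * k + 1 + 1) / 2 = k + 1 from by omega,
      S_odd, show (4 * k + 2) * (4 * k + 3) / 2 = (2 * k + 1) * (4 * k + 2 + 1) from by
        rw [show (4 * k + 2) * (4 * k + 3) = 2 * ((2 * k + 1) * (4 * k + 2 + 1)) from by ring,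
          Nat.mul_div_cancel_left _ (by norm_num)]]
    have h3 : u (2 * k + 1) (k + 1) = (Nat.centralBinom (k + 1) : ℚ) * (Nat.centralBinom k : ℚ) := by
      unfold u; rw [show 2 * k + 1 - (k + 1) = k from by omega]
    rw [h3, c_eq k]
    push_cast
    rw [pow_succ (1 / 4 : ℚ) (2 * k)]
    linear_combination (2 ^ ((2 * k + 1) * (4 * k + 2 + 1)) * (1 / 2) * ((1 / 4 : ℚ) ^ (2 * k) * (1 / 4)) *
      (Nat.centralBinom k : ℚ)) * hcb
  · have h := tilings_odd (2 * k + 1) (by omega)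
    rw [show 2 * (2 * k + 1) + 1 = 4 * k + 3 from by ring] at h
    rw [h, show (2 * k + 1 + 1) / 2 = k + 1 from by omega,
      show 2 * k + 1 + 1 - (k + 1) = k + 1 from by omega,
      S_odd, show (4 * k + 3) * (4 * k + 4) / 2 = (4 * k + 3) * (2 * k + 1 + 1) from by
        rw [show (4 * k + 3) * (4 * k + 4) = 2 * ((4 * k + 3) * (2 * k + 1 + 1)) from by ring,
          Nat.mul_div_cancel_left _ (by norm_num)]]
    rw [c_eq (k + 1)]
    push_cast
    rw [show 2 * k + 1 + 1 = 2 * (k + 1) from by ring]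
    ring

end Pool.Agent.Results.MP_b90a94_co.KnightPairFormula
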